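import Mathlib

set_option autoImplicit false

namespace Pool.Agent.Work.MP_b10815_co

/-- The integer points `K ∩ ℤ^d` of a subset `K` of `ℝ^d`. -/
def integerPoints {d : ℕ} (K : Set (Fin d → ℝ)) : Set (Fin d → ℝ) :=
  {x | x ∈ K ∧ ∀ i, ∃ m : ℤ, x i = (m : ℝ)}

/-- The affine hyperplane `{x | u · x = b}` (a hyperplane when `u ≠ 0`). -/
def hyperplane {d : ℕ} (u : Fin d → ℝ) (b : ℝ) : Set (Fin d → ℝ) :=
  {x | ∑ i, u i * x i = b}

/-- `X` is contained in a union of `N` affine hyperplanes. -/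
def CoveredBy {d : ℕ} (X : Set (Fin d → ℝ)) (N : ℕ) : Prop :=
  ∃ (u : Fin N → Fin d → ℝ) (b : Fin N → ℝ),
    (∀ j, u j ≠ 0) ∧ X ⊆ ⋃ j, hyperplane (u j) (b j)

/-- `X` is contained in a union of at most `M` pairwise parallel affine hyperplanes
(a common normal vector `v ≠ 0`; members may repeat, so `M` bounds their number). -/
def ParallelCoveredBy {d : ℕ} (X : Set (Fin d → ℝ)) (M : ℕ) : Prop :=
  ∃ (v : Fin d → ℝ) (b : Fin M → ℝ), v ≠ 0 ∧ X ⊆ ⋃ j, hyperplane v (b j)

/-- A real number `c > 0` is admissible in dimension `d`: whenever the integer points of a convex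
body `K ⊂ ℝ^d` lie in a union of `N ≥ 1` hyperplanes, they lie in a union of at most `c * N`
pairwise parallel hyperplanes. -/
def Admissible (d : ℕ) (c : ℝ) : Prop :=
  0 < c ∧ ∀ K : Set (Fin d → ℝ), Convex ℝ K → IsCompact K → (interior K).Nonempty →
    ∀ N : ℕ, 1 ≤ N → CoveredBy (integerPoints K) N →
      ∃ M : ℕ, (M : ℝ) ≤ c * N ∧ ParallelCoveredBy (integerPoints K) M

end Pool.Agent.Work.MP_b10815_co
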