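import Pool.Agent.Work.MP_b10815_co.Defs

set_option autoImplicit false

namespace Pool.Agent.Work.MP_b10815_co

open Finset

/-- A parallel cover has at least as many members as the number of distinct values. -/
lemma card_le_of_values {d m M : ℕ} (v : Fin d → ℝ) (b : Fin M → ℝ) (X : Set (Fin d → ℝ))
    (hcov : X ⊆ ⋃ j, hyperplane v (b j)) (p : Fin m → Fin d → ℝ) (hp : ∀ i, p i ∈ X)
    (hinj : ∀ i i', ∑ k, v k * p i k = ∑ k, v k * p i' k → i = i') : m ≤ M := by
  have h : ∀ i, ∃ j, ∑ k, v k * p i k = b j := by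
    intro i
    have := hcov (hp i)
    rw [Set.mem_iUnion] at this
    exact this
  choose f hf using h
  have hf' : Function.Injective f := by
    intro i i' hii
    apply hinj
    rw [hf i, hf i', hii]
  simpa using Fintype.card_le_of_injective f hf'

lemma sum_single_mul {d : ℕ} (e : Fin d) (x : Fin d → ℝ) :
    ∑ i, (Pi.single e (1 : ℝ) : Fin d → ℝ) i * x i = x e := by
  rw [sum_eq_single e]
  · rw [Pi.single_eq_same, one_mul]
  · intro j _ hj
    rw [Pi.single_eq_of_ne hj, zero_mul]
  · intro h; exact absurd (mem_univ _) h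

/-- The bipyramid in `ℝ^(n+1)` over `(n+1)Δ_n` with apexes `(±(n+1), 1, …, 1)`. -/
def bip (n : ℕ) : Set (Fin (n + 1) → ℝ) :=
  {x | (∀ i : Fin n, |x 0| ≤ (n + 1) * x i.succ) ∧
    |x 0| + (n + 1) * ∑ i : Fin n, x i.succ ≤ (n + 1) * (n + 1)}

lemma bip_convex (n : ℕ) : Convex ℝ (bip n) := by
  intro x hx y hy a b ha hb hab
  obtain ⟨hx1, hx2⟩ := hx
  obtain ⟨hy1, hy2⟩ := hy
  have habs : |(a • x + b • y) 0| ≤ a * |x 0| + b * |y 0| := by
    simp only [Pi.add_apply, Pi.smul_apply, smul_eq_mul]
    calc |a * x 0 + b * y 0| ≤ |a * x 0| + |b * y 0| := abs_add_le _ _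
      _ = a * |x 0| + b * |y 0| := by rw [abs_mul, abs_mul, abs_of_nonneg ha, abs_of_nonneg hb]
  refine ⟨fun i => ?_, ?_⟩
  · have h1 := mul_le_mul_of_nonneg_left (hx1 i) ha
    have h2 := mul_le_mul_of_nonneg_left (hy1 i) hb
    have h3 : ((n : ℝ) + 1) * (a • x + b • y) i.succ =
        a * ((n + 1) * x i.succ) + b * ((n + 1) * y i.succ) := by
      simp only [Pi.add_apply, Pi.smul_apply, smul_eq_mul]; ring
    rw [h3]
    linarith
  · have h3 : ∑ i : Fin n, (a • x + b • y) i.succ =
        a * ∑ i : Fin n, x i.succ + b * ∑ i : Fin n, y i.succ := by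
      simp only [Pi.add_apply, Pi.smul_apply, smul_eq_mul]
      rw [sum_add_distrib, mul_sum, mul_sum]
    rw [h3]
    have h1 := mul_le_mul_of_nonneg_left hx2 ha
    have h2 := mul_le_mul_of_nonneg_left hy2 hb
    have h4 : ((n : ℝ) + 1) * (n + 1) = a * ((n + 1) * (n + 1)) + b * ((n + 1) * (n + 1)) := by
      rw [← add_mul, hab, one_mul]
    rw [h4]
    nlinarith [habs]

lemma bip_closed (n : ℕ) : IsClosed (bip n) := by
  have h1 : bip n = (⋂ i : Fin n, {x : Fin (n + 1) → ℝ | |x 0| ≤ (n + 1) * x i.succ}) ∩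
      {x | |x 0| + (n + 1) * ∑ i : Fin n, x i.succ ≤ (n + 1) * (n + 1)} := by
    ext x
    simp only [bip, Set.mem_ofPred_eq, Set.mem_inter_iff, Set.mem_iInter]
  rw [h1]
  apply IsClosed.inter
  · apply isClosed_iInter
    intro i
    apply isClosed_le
    · fun_prop
    · fun_prop
  · apply isClosed_le
    · fun_prop
    · fun_prop

lemma bip_bounds (n : ℕ) (x : Fin (n + 1) → ℝ) (hx : x ∈ bip n) :
    |x 0| ≤ n + 1 ∧ ∀ i : Fin n, 0 ≤ x i.succ ∧ x i.succ ≤ n + 1 := by
  obtain ⟨h1, h2⟩ := hx
  have hn : (0 : ℝ) < n + 1 := by positivity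
  have hnn : ∀ i : Fin n, 0 ≤ x i.succ := by
    intro i
    have h3 := (abs_nonneg (x 0)).trans (h1 i)
    exact nonneg_of_mul_nonneg_right h3 hn
  have hsum : (n : ℝ) * |x 0| ≤ (n + 1) * ∑ i : Fin n, x i.succ := by
    rw [mul_sum]
    calc (n : ℝ) * |x 0| = ∑ _i : Fin n, |x 0| := by simp
      _ ≤ ∑ i : Fin n, (n + 1) * x i.succ := sum_le_sum (fun i _ => h1 i)
  refine ⟨?_, fun i => ⟨hnn i, ?_⟩⟩
  · have h3 : ((n : ℝ) + 1) * |x 0| ≤ (n + 1) * (n + 1) := by linarith
    exact le_of_mul_le_mul_left h3 hn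
  · have h3 : x i.succ ≤ ∑ i : Fin n, x i.succ :=
      single_le_sum (f := fun i : Fin n => x i.succ) (fun j _ => hnn j) (mem_univ i)
    have h4 : ((n : ℝ) + 1) * x i.succ ≤ (n + 1) * (n + 1) := by
      have := mul_le_mul_of_nonneg_left h3 hn.le
      have := abs_nonneg (x 0)
      linarith
    exact le_of_mul_le_mul_left h4 hn

lemma bip_compact (n : ℕ) : IsCompact (bip n) := by
  apply IsCompact.of_isClosed_subset (isCompact_univ_pi
    (s := fun _ : Fin (n + 1) => Set.Icc (-(n + 1 : ℝ)) (n + 1)) (fun _ => isCompact_Icc))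
    (bip_closed n)
  intro x hx
  obtain ⟨h1, h2⟩ := bip_bounds n x hx
  rw [Set.mem_univ_pi]
  intro i
  rw [Set.mem_Icc]
  refine Fin.cases ?_ ?_ i
  · exact abs_le.mp h1
  · intro j
    have hn : (0 : ℝ) ≤ n := Nat.cast_nonneg n
    exact ⟨by linarith [(h2 j).1], (h2 j).2⟩

lemma bip_interior (n : ℕ) : (interior (bip n)).Nonempty := by
  have hopen : IsOpen ((⋂ i : Fin n, {x : Fin (n + 1) → ℝ | |x 0| < (n + 1) * x i.succ}) ∩
      {x | |x 0| + (n + 1) * ∑ i : Fin n, x i.succ < (n + 1) * (n + 1)}) := by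
    apply IsOpen.inter
    · apply isOpen_iInter_of_finite
      intro i
      apply isOpen_lt
      · fun_prop
      · fun_prop
    · apply isOpen_lt
      · fun_prop
      · fun_prop
  refine ⟨Fin.cons 0 (fun _ => 1), ?_⟩
  apply interior_maximal _ hopen
  · constructor
    · rw [Set.mem_iInter]
      intro i
      simp only [Set.mem_ofPred_eq, Fin.cons_zero, Fin.cons_succ, abs_zero]
      positivity
    · simp only [Set.mem_ofPred_eq, Fin.cons_zero, Fin.cons_succ, abs_zero, sum_const, card_univ,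
        Fintype.card_fin, nsmul_eq_mul, mul_one, zero_add]
      have : (0 : ℝ) ≤ n := Nat.cast_nonneg n
      nlinarith
  · rintro x ⟨h1, h2⟩
    rw [Set.mem_iInter] at h1
    exact ⟨fun i => (h1 i).le, le_of_lt h2⟩

/-- Integer points of the bipyramid lie on two hyperplanes. -/
lemma bip_two (n : ℕ) (hn : 1 ≤ n) : CoveredBy (integerPoints (bip n)) 2 := by
  obtain ⟨k, rfl⟩ : ∃ k, n = k + 1 := ⟨n - 1, by omega⟩
  set e : Fin (k + 1 + 1) := (0 : Fin (k + 1)).succ with he
  refine ⟨![Pi.single 0 1, Pi.single e 1], ![0, 1], ?_, ?_⟩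
  · intro j
    refine Fin.cases ?_ (fun j => ?_) j
    · intro h
      have := congrFun h 0
      simp at this
    · intro h
      have hj : j = 0 := Subsingleton.elim _ _
      subst hj
      have := congrFun h e
      simp at this
  · rintro x ⟨⟨h1, h2⟩, hint⟩
    rw [Set.mem_iUnion]
    by_cases hz : x 0 = 0
    · refine ⟨0, ?_⟩
      change ∑ i, (Pi.single (0 : Fin (k + 1 + 1)) (1 : ℝ) : Fin (k + 1 + 1) → ℝ) i * x i = 0
      rw [sum_single_mul]; exact hz
    · refine ⟨1, ?_⟩
      have hbase : x e = 1 := by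
        obtain ⟨z, hz'⟩ := hint 0
        have hzne : z ≠ 0 := by
          rintro rfl
          apply hz
          rw [hz']; simp
        have hzabs : (1 : ℝ) ≤ |x 0| := by
          rw [hz']
          have := Int.one_le_abs hzne
          exact_mod_cast this
        choose m hm using hint
        have hpos : ∀ i : Fin (k + 1), 1 ≤ m i.succ := by
          intro i
          have h3 := h1 i
          have h4 : (0 : ℝ) < ((k + 1 : ℕ) : ℝ) + 1 := by positivity
          have h5 : 0 < x i.succ := by
            by_contra hneg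
            push Not at hneg
            have := mul_nonpos_of_nonneg_of_nonpos h4.le hneg
            linarith
          rw [hm] at h5
          have h6 : 0 < m i.succ := by exact_mod_cast h5
          omega
        have hsum : ∑ i : Fin (k + 1), m i.succ ≤ k + 1 := by
          have h4 : (0 : ℝ) < ((k + 1 : ℕ) : ℝ) + 1 := by positivity
          have h5 : ∑ i : Fin (k + 1), x i.succ < ((k + 1 : ℕ) : ℝ) + 1 := by
            by_contra hneg
            push Not at hneg
            have := mul_le_mul_of_nonneg_left hneg h4.le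
            linarith
          have h6 : ∑ i : Fin (k + 1), x i.succ = ((∑ i : Fin (k + 1), m i.succ : ℤ) : ℝ) := by
            push_cast
            apply sum_congr rfl
            intro i _
            rw [hm]
          rw [h6] at h5
          have h7 : (∑ i : Fin (k + 1), m i.succ) < (k + 1 : ℤ) + 1 := by
            exact_mod_cast h5
          omega
        have hone : m e = 1 := by
          have h5 : ∑ i : Fin (k + 1), (m i.succ - 1) ≤ 0 := by
            rw [sum_sub_distrib]
            simp only [sum_const, card_univ, Fintype.card_fin, nsmul_eq_mul, mul_one]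
            push_cast
            omega
          have h6 : m e - 1 ≤ ∑ i : Fin (k + 1), (m i.succ - 1) :=
            single_le_sum (f := fun i : Fin (k + 1) => m i.succ - 1)
              (fun j _ => by have := hpos j; omega) (mem_univ 0)
          have h7 := hpos 0
          rw [← he] at h7
          omega
        rw [hm, hone]; simp
      change ∑ i, (Pi.single e (1 : ℝ) : Fin (k + 1 + 1) → ℝ) i * x i = 1
      rw [sum_single_mul]; exact hbase

/-- Every parallel cover of the bipyramid's integer points has at least `n + 2` members. -/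
lemma bip_parallel (n M : ℕ) (hM : ParallelCoveredBy (integerPoints (bip n)) M) : n + 2 ≤ M := by
  obtain ⟨v, b, hv, hcov⟩ := hM
  by_cases hex : ∃ i : Fin n, v i.succ ≠ 0
  · obtain ⟨i, hi⟩ := hex
    apply card_le_of_values v b _ hcov (fun t : Fin (n + 2) => Pi.single i.succ (t.val : ℝ))
    · intro t
      refine ⟨⟨fun j => ?_, ?_⟩, fun j => ?_⟩
      · have h0 : (Pi.single i.succ (t.val : ℝ) : Fin (n + 1) → ℝ) 0 = 0 :=
          Pi.single_eq_of_ne (Fin.succ_ne_zero i).symm _
        rw [h0, abs_zero]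
        apply mul_nonneg (by positivity)
        by_cases hj : j = i
        · rw [hj, Pi.single_eq_same]; positivity
        · rw [Pi.single_eq_of_ne (fun h => hj (Fin.succ_injective _ h))]
      · have h0 : (Pi.single i.succ (t.val : ℝ) : Fin (n + 1) → ℝ) 0 = 0 :=
          Pi.single_eq_of_ne (Fin.succ_ne_zero i).symm _
        rw [h0, abs_zero, zero_add]
        have hs : ∑ j : Fin n, (Pi.single i.succ (t.val : ℝ) : Fin (n + 1) → ℝ) j.succ = t.val := by
          rw [sum_eq_single i]
          · rw [Pi.single_eq_same]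
          · intro j _ hj
            exact Pi.single_eq_of_ne (fun h => hj (Fin.succ_injective _ h)) _
          · intro h; exact absurd (mem_univ i) h
        rw [hs]
        apply mul_le_mul_of_nonneg_left _ (by positivity)
        have : t.val ≤ n + 1 := by omega
        exact_mod_cast this
      · by_cases hj : j = i.succ
        · refine ⟨t.val, ?_⟩
          rw [hj, Pi.single_eq_same]; simp
        · refine ⟨0, ?_⟩
          rw [Pi.single_eq_of_ne hj]; simp
    · intro t t' h
      have hs : ∀ t : Fin (n + 2),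
          ∑ k, v k * (Pi.single i.succ (t.val : ℝ) : Fin (n + 1) → ℝ) k = v i.succ * t.val := by
        intro t
        rw [sum_eq_single i.succ]
        · rw [Pi.single_eq_same]
        · intro j _ hj
          rw [Pi.single_eq_of_ne hj, mul_zero]
        · intro h; exact absurd (mem_univ _) h
      rw [hs, hs] at h
      have h2 := mul_left_cancel₀ hi h
      have h3 : t.val = t'.val := by exact_mod_cast h2
      exact Fin.ext h3
  · push Not at hex
    have hv0 : v 0 ≠ 0 := by
      intro h0
      apply hv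
      funext j
      refine Fin.cases h0 (fun i => ?_) j
      exact hex i
    apply card_le_of_values v b _ hcov
      (fun t : Fin (n + 2) => Fin.cons (t.val : ℝ) (fun _ => 1))
    · intro t
      have ht : (t.val : ℝ) ≤ n + 1 := by
        have : t.val ≤ n + 1 := by omega
        exact_mod_cast this
      have ht0 : (0 : ℝ) ≤ (t.val : ℝ) := Nat.cast_nonneg _
      refine ⟨⟨fun j => ?_, ?_⟩, fun j => ?_⟩
      · simp only [Fin.cons_zero, Fin.cons_succ, mul_one]
        rw [abs_of_nonneg ht0]; exact ht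
      · simp only [Fin.cons_zero, Fin.cons_succ, sum_const, card_univ, Fintype.card_fin,
          nsmul_eq_mul, mul_one]
        rw [abs_of_nonneg ht0]
        nlinarith
      · refine Fin.cases ?_ (fun i => ?_) j
        · exact ⟨t.val, by simp⟩
        · exact ⟨1, by simp⟩
    · intro t t' h
      have hs : ∀ t : Fin (n + 2),
          ∑ k, v k * (Fin.cons (t.val : ℝ) (fun _ => (1 : ℝ)) : Fin (n + 1) → ℝ) k =
            v 0 * t.val := by
        intro t
        rw [Fin.sum_univ_succ]
        simp [hex]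
      rw [hs, hs] at h
      have h2 := mul_left_cancel₀ hv0 h
      have h3 : t.val = t'.val := by exact_mod_cast h2
      exact Fin.ext h3

/-- Dimension one. -/
theorem lower_one (c : ℝ) (hc : Admissible 1 c) : 1 ≤ c := by
  obtain ⟨_, h⟩ := hc
  have hconv : Convex ℝ {x : Fin 1 → ℝ | |x 0| ≤ 1 / 2} := by
    intro x hx y hy a b ha hb hab
    simp only [Set.mem_ofPred_eq] at hx hy ⊢
    rw [abs_le] at hx hy ⊢
    simp only [Pi.add_apply, Pi.smul_apply, smul_eq_mul]
    constructor
    · nlinarith [mul_le_mul_of_nonneg_left hx.1 ha, mul_le_mul_of_nonneg_left hy.1 hb]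
    · nlinarith [mul_le_mul_of_nonneg_left hx.2 ha, mul_le_mul_of_nonneg_left hy.2 hb]
  have hcomp : IsCompact {x : Fin 1 → ℝ | |x 0| ≤ 1 / 2} := by
    apply IsCompact.of_isClosed_subset (isCompact_univ_pi
      (s := fun _ : Fin 1 => Set.Icc (-(1 / 2) : ℝ) (1 / 2)) (fun _ => isCompact_Icc))
    · apply isClosed_le
      · fun_prop
      · fun_prop
    · intro x hx
      rw [Set.mem_univ_pi]
      intro i
      have : i = 0 := Subsingleton.elim _ _
      subst this
      rw [Set.mem_Icc]
      exact abs_le.mp hx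
  have hint : (interior {x : Fin 1 → ℝ | |x 0| ≤ 1 / 2}).Nonempty := by
    refine ⟨0, ?_⟩
    apply interior_maximal (s := {x : Fin 1 → ℝ | |x 0| ≤ 1 / 2})
      (t := {x : Fin 1 → ℝ | |x 0| < 1 / 2})
    · intro x hx
      have h1 : |x 0| < 1 / 2 := hx
      exact h1.le
    · apply isOpen_lt
      · fun_prop
      · fun_prop
    · simp
  have hcov : CoveredBy (integerPoints {x : Fin 1 → ℝ | |x 0| ≤ 1 / 2}) 1 := by
    refine ⟨fun _ => Pi.single 0 1, fun _ => 0, ?_, ?_⟩
    · intro j h
      have := congrFun h 0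
      simp at this
    · rintro x ⟨hx, hm⟩
      rw [Set.mem_iUnion]
      refine ⟨0, ?_⟩
      change ∑ i, (Pi.single (0 : Fin 1) (1 : ℝ) : Fin 1 → ℝ) i * x i = 0
      rw [sum_single_mul]
      obtain ⟨m, hm⟩ := hm 0
      have h1 : |x 0| ≤ 1 / 2 := hx
      rw [hm] at h1
      have h2 : m = 0 := by
        by_contra hne
        have h3 := Int.one_le_abs hne
        have h4 : (1 : ℝ) ≤ |(m : ℝ)| := by exact_mod_cast h3
        linarith
      rw [hm, h2]; simp
  obtain ⟨M, hM1, v, b, hv, hM2⟩ := h _ hconv hcomp hint 1 le_rfl hcov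
  have h0 : (0 : Fin 1 → ℝ) ∈ integerPoints {x : Fin 1 → ℝ | |x 0| ≤ 1 / 2} := by
    refine ⟨by simp, fun i => ⟨0, by simp⟩⟩
  have h1 := hM2 h0
  rw [Set.mem_iUnion] at h1
  obtain ⟨j, _⟩ := h1
  have hMpos : 1 ≤ M := by
    have := j.isLt
    omega
  have h2 : (1 : ℝ) ≤ M := by exact_mod_cast hMpos
  push_cast at hM1
  linarith

/-- Lower bound in every dimension `≥ 2`. -/
theorem lower_ge_two (n : ℕ) (hn : 1 ≤ n) (c : ℝ) (hc : Admissible (n + 1) c) :
    ((n + 1 : ℕ) + 1 : ℝ) / 2 ≤ c := by
  obtain ⟨_, h⟩ := hc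
  obtain ⟨M, hM1, hM2⟩ := h (bip n) (bip_convex n) (bip_compact n) (bip_interior n) 2 (by norm_num)
    (bip_two n hn)
  have h1 := bip_parallel n M hM2
  have h2 : ((n + 2 : ℕ) : ℝ) ≤ M := by exact_mod_cast h1
  push_cast at h2 hM1 ⊢
  linarith

/-- `c(d) ≥ (d+1)/2` for every `d ≥ 1`. -/
theorem lower_all (d : ℕ) (hd : 1 ≤ d) (c : ℝ) (hc : Admissible d c) : ((d : ℝ) + 1) / 2 ≤ c := by
  obtain ⟨n, rfl⟩ : ∃ n, d = n + 1 := ⟨d - 1, by omega⟩
  rcases Nat.eq_zero_or_pos n with rfl | hn
  · have := lower_one c hc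
    norm_num
    linarith
  · exact lower_ge_two n hn c hc

end Pool.Agent.Work.MP_b10815_co
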