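import Pool.Agent.Work.MP_b10815_co.Linear

set_option autoImplicit false

namespace Pool.Agent.Work.MP_b10815_co

open Finset

/-- A convex body given by finitely many strict/non-strict convex inequalities: interior. -/
lemma interior_of_open {d : ℕ} {K U : Set (Fin d → ℝ)} (hU : IsOpen U) (hUK : U ⊆ K)
    (hne : U.Nonempty) : (interior K).Nonempty := by
  obtain ⟨x, hx⟩ := hne
  exact ⟨x, interior_maximal hUK hU hx⟩

/-! ### The plane: three lines versus five parallel lines -/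

/-- The triangle with vertices `(2,0)`, `(0,2)`, `(-2,-2)`. -/
def tri : Set (Fin 2 → ℝ) := {x | x 0 + x 1 ≤ 2 ∧ x 0 - 2 * x 1 ≤ 2 ∧ x 1 - 2 * x 0 ≤ 2}

lemma tri_convex : Convex ℝ tri := by
  rintro x ⟨hx1, hx2, hx3⟩ y ⟨hy1, hy2, hy3⟩ a b ha hb hab
  simp only [tri, Set.mem_ofPred_eq, Pi.add_apply, Pi.smul_apply, smul_eq_mul]
  refine ⟨?_, ?_, ?_⟩
  · nlinarith [mul_le_mul_of_nonneg_left hx1 ha, mul_le_mul_of_nonneg_left hy1 hb]
  · nlinarith [mul_le_mul_of_nonneg_left hx2 ha, mul_le_mul_of_nonneg_left hy2 hb]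
  · nlinarith [mul_le_mul_of_nonneg_left hx3 ha, mul_le_mul_of_nonneg_left hy3 hb]

lemma tri_closed : IsClosed tri := by
  have h : tri = {x : Fin 2 → ℝ | x 0 + x 1 ≤ 2} ∩ ({x | x 0 - 2 * x 1 ≤ 2} ∩
      {x | x 1 - 2 * x 0 ≤ 2}) := by
    ext x; simp only [tri, Set.mem_ofPred_eq, Set.mem_inter_iff]
  rw [h]
  refine IsClosed.inter ?_ (IsClosed.inter ?_ ?_)
  · exact isClosed_le (by fun_prop) (by fun_prop)
  · exact isClosed_le (by fun_prop) (by fun_prop)
  · exact isClosed_le (by fun_prop) (by fun_prop)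

lemma tri_compact : IsCompact tri := by
  apply IsCompact.of_isClosed_subset (isCompact_univ_pi
    (s := fun _ : Fin 2 => Set.Icc (-2 : ℝ) 2) (fun _ => isCompact_Icc)) tri_closed
  rintro x ⟨h1, h2, h3⟩
  rw [Set.mem_univ_pi]
  intro i
  rw [Set.mem_Icc]
  fin_cases i
  · exact ⟨by change -2 ≤ x 0; linarith, by change x 0 ≤ 2; linarith⟩
  · exact ⟨by change -2 ≤ x 1; linarith, by change x 1 ≤ 2; linarith⟩

lemma tri_interior : (interior tri).Nonempty := by
  apply interior_of_open (U := {x : Fin 2 → ℝ | x 0 + x 1 < 2} ∩ ({x | x 0 - 2 * x 1 < 2} ∩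
      {x | x 1 - 2 * x 0 < 2}))
  · refine IsOpen.inter ?_ (IsOpen.inter ?_ ?_)
    · exact isOpen_lt (by fun_prop) (by fun_prop)
    · exact isOpen_lt (by fun_prop) (by fun_prop)
    · exact isOpen_lt (by fun_prop) (by fun_prop)
  · rintro x ⟨h1, h2, h3⟩
    exact ⟨le_of_lt h1, le_of_lt h2, le_of_lt h3⟩
  · exact ⟨0, by simp [Set.mem_inter_iff]⟩

lemma tri_three : CoveredBy (integerPoints tri) 3 := by
  refine ⟨![![0, 1], ![1, 0], ![1, -1]], ![0, 0, 0], ?_, ?_⟩
  · intro j h
    fin_cases j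
    · have := congrFun h 1; simp at this
    · have := congrFun h 0; simp at this
    · have := congrFun h 0; simp at this
  · rintro x ⟨⟨h1, h2, h3⟩, hm⟩
    obtain ⟨a, ha⟩ := hm 0
    obtain ⟨b, hb⟩ := hm 1
    rw [ha, hb] at h1 h2 h3
    have h1' : a + b ≤ 2 := by exact_mod_cast h1
    have h2' : a - 2 * b ≤ 2 := by exact_mod_cast h2
    have h3' : b - 2 * a ≤ 2 := by exact_mod_cast h3
    have key : b = 0 ∨ a = 0 ∨ a = b := by omega
    rw [Set.mem_iUnion]
    rcases key with h | h | h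
    · refine ⟨0, ?_⟩
      simp [hyperplane, Fin.sum_univ_two, hb, h]
    · refine ⟨1, ?_⟩
      simp [hyperplane, Fin.sum_univ_two, ha, h]
    · refine ⟨2, ?_⟩
      simp [hyperplane, Fin.sum_univ_two, ha, hb, h]

/-- Five collinear-type values: if `s * t < 0` then `2s, s, 0, t, 2t` are distinct. -/
lemma five_distinct (s t : ℝ) (h : s * t < 0) :
    Function.Injective (![2 * s, s, 0, t, 2 * t] : Fin 5 → ℝ) := by
  rcases mul_neg_iff.mp h with ⟨hs, ht⟩ | ⟨hs, ht⟩
  · intro i j hij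
    fin_cases i <;> fin_cases j <;> simp at hij ⊢ <;> linarith
  · intro i j hij
    fin_cases i <;> fin_cases j <;> simp at hij ⊢ <;> linarith

lemma tri_parallel (M : ℕ) (hM : ParallelCoveredBy (integerPoints tri) M) : 5 ≤ M := by
  obtain ⟨v, b, hv, hcov⟩ := hM
  have main : ∀ p q : Fin 2 → ℝ, (∀ c : ℝ, c = 0 ∨ c = 1 ∨ c = 2 → c • p ∈ integerPoints tri ∧
      c • q ∈ integerPoints tri) → (∑ k, v k * p k) * (∑ k, v k * q k) < 0 → 5 ≤ M := by
    intro p q hpq hneg
    apply card_le_of_values v b _ hcov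
      (![(2 : ℝ) • p, (1 : ℝ) • p, (0 : ℝ) • p, (1 : ℝ) • q, (2 : ℝ) • q])
    · intro i
      fin_cases i
      · exact (hpq 2 (by norm_num)).1
      · exact (hpq 1 (by norm_num)).1
      · exact (hpq 0 (by norm_num)).1
      · exact (hpq 1 (by norm_num)).2
      · exact (hpq 2 (by norm_num)).2
    · intro i j hij
      apply five_distinct _ _ hneg
      have hval : ∀ i : Fin 5, ∑ k, v k *
          (![(2 : ℝ) • p, (1 : ℝ) • p, (0 : ℝ) • p, (1 : ℝ) • q, (2 : ℝ) • q] i) k =
          (![2 * (∑ k, v k * p k), ∑ k, v k * p k, 0, ∑ k, v k * q k,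
            2 * (∑ k, v k * q k)] : Fin 5 → ℝ) i := by
        intro i
        fin_cases i <;> simp [Fin.sum_univ_two] <;> ring
      rw [← hval, ← hval]
      exact hij
  have hmem : ∀ (a b : ℤ), a + b ≤ 2 → a - 2 * b ≤ 2 → b - 2 * a ≤ 2 →
      (![(a : ℝ), (b : ℝ)] : Fin 2 → ℝ) ∈ integerPoints tri := by
    intro a b h1 h2 h3
    refine ⟨⟨?_, ?_, ?_⟩, fun i => ?_⟩
    · change (a : ℝ) + b ≤ 2; exact_mod_cast h1
    · change (a : ℝ) - 2 * b ≤ 2; exact_mod_cast h2
    · change (b : ℝ) - 2 * a ≤ 2; exact_mod_cast h3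
    · fin_cases i
      · exact ⟨a, rfl⟩
      · exact ⟨b, rfl⟩
  have e1 : ∀ c : ℝ, c = 0 ∨ c = 1 ∨ c = 2 → c • (![1, 0] : Fin 2 → ℝ) ∈ integerPoints tri := by
    rintro c (rfl | rfl | rfl)
    · have := hmem 0 0 (by norm_num) (by norm_num) (by norm_num)
      convert this using 1; ext i; fin_cases i <;> simp
    · have := hmem 1 0 (by norm_num) (by norm_num) (by norm_num)
      convert this using 1; ext i; fin_cases i <;> simp
    · have := hmem 2 0 (by norm_num) (by norm_num) (by norm_num)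
      convert this using 1; ext i; fin_cases i <;> simp
  have e2 : ∀ c : ℝ, c = 0 ∨ c = 1 ∨ c = 2 → c • (![0, 1] : Fin 2 → ℝ) ∈ integerPoints tri := by
    rintro c (rfl | rfl | rfl)
    · have := hmem 0 0 (by norm_num) (by norm_num) (by norm_num)
      convert this using 1; ext i; fin_cases i <;> simp
    · have := hmem 0 1 (by norm_num) (by norm_num) (by norm_num)
      convert this using 1; ext i; fin_cases i <;> simp
    · have := hmem 0 2 (by norm_num) (by norm_num) (by norm_num)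
      convert this using 1; ext i; fin_cases i <;> simp
  have e3 : ∀ c : ℝ, c = 0 ∨ c = 1 ∨ c = 2 → c • (![-1, -1] : Fin 2 → ℝ) ∈ integerPoints tri := by
    rintro c (rfl | rfl | rfl)
    · have := hmem 0 0 (by norm_num) (by norm_num) (by norm_num)
      convert this using 1; ext i; fin_cases i <;> simp
    · have := hmem (-1) (-1) (by norm_num) (by norm_num) (by norm_num)
      convert this using 1; ext i; fin_cases i <;> simp
    · have := hmem (-2) (-2) (by norm_num) (by norm_num) (by norm_num)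
      convert this using 1; ext i; fin_cases i <;> simp
  have hv' : v 0 ≠ 0 ∨ v 1 ≠ 0 := by
    by_contra h
    push Not at h
    apply hv
    ext i
    fin_cases i
    · exact h.1
    · exact h.2
  have hcases : v 0 * v 1 < 0 ∨ v 0 * (-v 0 - v 1) < 0 ∨ v 1 * (-v 0 - v 1) < 0 := by
    by_contra h
    push Not at h
    obtain ⟨h1, h2, h3⟩ := h
    have h4 : v 0 ^ 2 + v 1 ^ 2 ≤ 0 := by nlinarith
    rcases hv' with h5 | h5
    · have := sq_pos_of_ne_zero h5
      nlinarith [sq_nonneg (v 1)]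
    · have := sq_pos_of_ne_zero h5
      nlinarith [sq_nonneg (v 0)]
  rcases hcases with h | h | h
  · refine main ![1, 0] ![0, 1] (fun c hc => ⟨e1 c hc, e2 c hc⟩) ?_
    simpa [Fin.sum_univ_two] using h
  · refine main ![1, 0] ![-1, -1] (fun c hc => ⟨e1 c hc, e3 c hc⟩) ?_
    have : (∑ k, v k * (![1, 0] : Fin 2 → ℝ) k) * (∑ k, v k * (![-1, -1] : Fin 2 → ℝ) k) =
        v 0 * (-v 0 - v 1) := by
      simp only [Fin.sum_univ_two, Matrix.cons_val_zero, Matrix.cons_val_one]; ring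
    rw [this]; exact h
  · refine main ![0, 1] ![-1, -1] (fun c hc => ⟨e2 c hc, e3 c hc⟩) ?_
    have : (∑ k, v k * (![0, 1] : Fin 2 → ℝ) k) * (∑ k, v k * (![-1, -1] : Fin 2 → ℝ) k) =
        v 1 * (-v 0 - v 1) := by
      simp only [Fin.sum_univ_two, Matrix.cons_val_zero, Matrix.cons_val_one]; ring
    rw [this]; exact h

theorem lower_plane (c : ℝ) (hc : Admissible 2 c) : 5 / 3 ≤ c := by
  obtain ⟨_, h⟩ := hc
  obtain ⟨M, hM1, hM2⟩ := h tri tri_convex tri_compact tri_interior 3 (by norm_num) tri_three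
  have h1 := tri_parallel M hM2
  have h2 : (5 : ℝ) ≤ M := by exact_mod_cast h1
  push_cast at hM1
  linarith

/-! ### Dimension three: two planes versus five parallel planes -/

/-- A sheared cross-polytope in `ℝ³`. -/
def oct : Set (Fin 3 → ℝ) := {x | |x 0| + |x 1 - x 2 / 2| + |x 2| ≤ 2}

lemma oct_convex : Convex ℝ oct := by
  intro x hx y hy a b ha hb hab
  have hx' : |x 0| + |x 1 - x 2 / 2| + |x 2| ≤ 2 := hx
  have hy' : |y 0| + |y 1 - y 2 / 2| + |y 2| ≤ 2 := hy
  simp only [oct, Set.mem_ofPred_eq, Pi.add_apply, Pi.smul_apply, smul_eq_mul]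
  have h0 : |a * x 0 + b * y 0| ≤ a * |x 0| + b * |y 0| := by
    calc _ ≤ |a * x 0| + |b * y 0| := abs_add_le _ _
      _ = _ := by rw [abs_mul, abs_mul, abs_of_nonneg ha, abs_of_nonneg hb]
  have h2 : |a * x 2 + b * y 2| ≤ a * |x 2| + b * |y 2| := by
    calc _ ≤ |a * x 2| + |b * y 2| := abs_add_le _ _
      _ = _ := by rw [abs_mul, abs_mul, abs_of_nonneg ha, abs_of_nonneg hb]
  have h1 : |a * x 1 + b * y 1 - (a * x 2 + b * y 2) / 2| ≤
      a * |x 1 - x 2 / 2| + b * |y 1 - y 2 / 2| := by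
    calc _ = |a * (x 1 - x 2 / 2) + b * (y 1 - y 2 / 2)| := by congr 1; ring
      _ ≤ |a * (x 1 - x 2 / 2)| + |b * (y 1 - y 2 / 2)| := abs_add_le _ _
      _ = _ := by rw [abs_mul, abs_mul, abs_of_nonneg ha, abs_of_nonneg hb]
  have h3 := mul_le_mul_of_nonneg_left hx' ha
  have h4 := mul_le_mul_of_nonneg_left hy' hb
  nlinarith

lemma oct_compact : IsCompact oct := by
  apply IsCompact.of_isClosed_subset (isCompact_univ_pi
    (s := fun _ : Fin 3 => Set.Icc (-3 : ℝ) 3) (fun _ => isCompact_Icc))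
  · exact isClosed_le (by fun_prop) (by fun_prop)
  · intro x hx
    have hx' : |x 0| + |x 1 - x 2 / 2| + |x 2| ≤ 2 := hx
    rw [Set.mem_univ_pi]
    intro i
    rw [Set.mem_Icc]
    have a0 := abs_nonneg (x 0)
    have a1 := abs_nonneg (x 1 - x 2 / 2)
    have a2 := abs_nonneg (x 2)
    have b0 := abs_le.mp (show |x 0| ≤ 2 by linarith)
    have b1 := abs_le.mp (show |x 1 - x 2 / 2| ≤ 2 by linarith)
    have b2 := abs_le.mp (show |x 2| ≤ 2 by linarith)
    fin_cases i
    · exact ⟨by change -3 ≤ x 0; linarith, by change x 0 ≤ 3; linarith⟩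
    · exact ⟨by change -3 ≤ x 1; linarith, by change x 1 ≤ 3; linarith⟩
    · exact ⟨by change -3 ≤ x 2; linarith, by change x 2 ≤ 3; linarith⟩

lemma oct_interior : (interior oct).Nonempty := by
  apply interior_of_open (U := {x : Fin 3 → ℝ | |x 0| + |x 1 - x 2 / 2| + |x 2| < 2})
  · exact isOpen_lt (by fun_prop) (by fun_prop)
  · intro x hx
    exact le_of_lt (show |x 0| + |x 1 - x 2 / 2| + |x 2| < 2 from hx)
  · exact ⟨0, by simp⟩

lemma oct_two : CoveredBy (integerPoints oct) 2 := by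
  refine ⟨![![1, 0, 0], ![0, 0, 1]], ![0, 0], ?_, ?_⟩
  · intro j h
    fin_cases j
    · have := congrFun h 0; simp at this
    · have := congrFun h 2; simp at this
  · rintro x ⟨hx, hm⟩
    obtain ⟨a, ha⟩ := hm 0
    obtain ⟨b, hb⟩ := hm 1
    obtain ⟨e, he⟩ := hm 2
    have hx' : |x 0| + |x 1 - x 2 / 2| + |x 2| ≤ 2 := hx
    rw [ha, hb, he] at hx'
    have key : a = 0 ∨ e = 0 := by
      by_contra hcon
      push Not at hcon
      have h1 : (1 : ℝ) ≤ |(a : ℝ)| := by exact_mod_cast Int.one_le_abs hcon.1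
      have h2 : (1 : ℝ) ≤ |(e : ℝ)| := by exact_mod_cast Int.one_le_abs hcon.2
      have h3 := abs_nonneg ((b : ℝ) - e / 2)
      have h4 : |(e : ℝ)| = 1 := by linarith
      have h5 : |(b : ℝ) - e / 2| = 0 := by linarith
      have h6 : (b : ℝ) - e / 2 = 0 := abs_eq_zero.mp h5
      have h7 : (2 * b : ℝ) = e := by linarith
      have h8 : 2 * b = e := by exact_mod_cast h7
      have h9 : |e| = 1 := by exact_mod_cast h4
      rcases abs_eq (by norm_num : (0:ℤ) ≤ 1) |>.mp h9 with h | h <;> omega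
    rw [Set.mem_iUnion]
    rcases key with h | h
    · refine ⟨0, ?_⟩
      simp [hyperplane, Fin.sum_univ_three, ha, h]
    · refine ⟨1, ?_⟩
      simp [hyperplane, Fin.sum_univ_three, he, h]

lemma oct_parallel (M : ℕ) (hM : ParallelCoveredBy (integerPoints oct) M) : 5 ≤ M := by
  obtain ⟨v, b, hv, hcov⟩ := hM
  have hmem : ∀ (a b e : ℤ), |(a : ℝ)| + |(b : ℝ) - e / 2| + |(e : ℝ)| ≤ 2 →
      (![(a : ℝ), (b : ℝ), (e : ℝ)] : Fin 3 → ℝ) ∈ integerPoints oct := by
    intro a b e h1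
    refine ⟨?_, fun i => ?_⟩
    · change |(a : ℝ)| + |(b : ℝ) - e / 2| + |(e : ℝ)| ≤ 2; exact h1
    · fin_cases i
      · exact ⟨a, rfl⟩
      · exact ⟨b, rfl⟩
      · exact ⟨e, rfl⟩
  have hfin : ∀ (s : ℝ), s ≠ 0 → ∀ i j : Fin 5, s * ((i.val : ℝ) - 2) = s * ((j.val : ℝ) - 2) →
      i = j := by
    intro s hs i j h
    have h1 := mul_left_cancel₀ hs h
    have h2 : (i.val : ℝ) = j.val := by linarith
    exact Fin.ext (by exact_mod_cast h2)
  by_cases h0 : v 0 ≠ 0
  · apply card_le_of_values v b _ hcov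
      (fun i : Fin 5 => ![((i.val : ℤ) - 2 : ℤ), (0 : ℤ), (0 : ℤ)])
    · intro i
      apply hmem
      fin_cases i <;> simp <;> norm_num
    · intro i j hij
      apply hfin (v 0) h0
      simpa [Fin.sum_univ_three] using hij
  · by_cases h1 : v 1 ≠ 0
    · apply card_le_of_values v b _ hcov
        (fun i : Fin 5 => ![(0 : ℤ), ((i.val : ℤ) - 2 : ℤ), (0 : ℤ)])
      · intro i
        apply hmem
        fin_cases i <;> simp <;> norm_num
      · intro i j hij
        apply hfin (v 1) h1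
        simpa [Fin.sum_univ_three] using hij
    · push Not at h0 h1
      have h2 : v 2 ≠ 0 := by
        intro h2
        apply hv
        ext i
        fin_cases i
        · exact h0
        · exact h1
        · exact h2
      apply card_le_of_values v b _ hcov
        (fun i : Fin 5 => ![(0 : ℤ), (![-1, 0, 0, 0, 1] : Fin 5 → ℤ) i, ((i.val : ℤ) - 2 : ℤ)])
      · intro i
        apply hmem
        fin_cases i <;> simp <;> norm_num
      · intro i j hij
        apply hfin (v 2) h2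
        simpa [Fin.sum_univ_three, h0, h1] using hij

theorem lower_space (c : ℝ) (hc : Admissible 3 c) : 5 / 2 ≤ c := by
  obtain ⟨_, h⟩ := hc
  obtain ⟨M, hM1, hM2⟩ := h oct oct_convex oct_compact oct_interior 2 (by norm_num) oct_two
  have h1 := oct_parallel M hM2
  have h2 : (5 : ℝ) ≤ M := by exact_mod_cast h1
  push_cast at hM1
  linarith

end Pool.Agent.Work.MP_b10815_co
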